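import Pool.Agent.H12.Field5

/-!
# The quaternary cubic form of MP_3a7aac_nt has no nontrivial integer zeros

Outline. Write `θ` for a root of `X^3 - X - 1` (a cubic field of discriminant `-23`).
There are explicit integral quadratic forms `Q1, Q2, Q3` and cubic forms `c, d` with
`2 c^2 + c d + 3 d^2 = Norm(Q1 + Q2 θ + Q3 θ^2) + F * R`.
At a primitive zero of `F` the right hand side is a positive integer whose prime factors are not
inert in `ℚ(θ)` (an elimination argument), hence each of them is represented by the principal form
of discriminant `-23` or is inert in `ℚ(√-23)` (the Hilbert class field of `ℚ(√-23)` has trivial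
class group, Minkowski bound). This contradicts that the left hand side is a value of the
nonprincipal form. This is an explicit Brauer-Manin obstruction by a class of order three.
-/

namespace Pool.Agent.Results.MP_3a7aac_nt.NoZeros

theorem result : ∀ x y z t : ℤ,
    x ^ 3 + 2 * x ^ 2 * y + y ^ 3 + y ^ 2 * z + x * z ^ 2 + z ^ 3 + t ^ 2 * x - t ^ 2 * y
      - t ^ 2 * z + t * y * z + t ^ 3 = 0 →
    x = 0 ∧ y = 0 ∧ z = 0 ∧ t = 0 :=
  fun x y z t h => Pool.Agent.H12.Cubic.no_zeros Pool.Agent.H12.HCF.rec_principal x y z t h

end Pool.Agent.Results.MP_3a7aac_nt.NoZeros
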